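import Pool.Agent.Work.MP_8c679b_co.A3.KY
import Pool.Agent.Work.MP_8c679b_co.Top.RMain
import Pool.Agent.Work.MP_8c679b_co.Top.RA3
import Pool.Agent.Work.MP_8c679b_co.Top.LPair
import Pool.Agent.Work.MP_8c679b_co.Top.TFs

/-!
Every flow-admissible signed graph has a nowhere-zero 6-flow (half-edge formulation).
-/

set_option autoImplicit false

namespace Pool.Agent.Results.MP_8c679b_co.SixFlow

open Pool.Agent.Work.MP_8c679b_co

/-- The signed multigraph with vertex set `V`, edge set `E`, half-edges `(e, 0)`, `(e, 1)` placed at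
the vertices `ends (e, 0)`, `ends (e, 1)` and signature `σ` has a nowhere-zero `k`-flow: an
orientation `τ` of the half-edges with values `±1` and `τ (e, 0) * τ (e, 1) = -σ e`, and an integer
map `f` with `0 < |f e| < k` whose signed sum over the half-edges at each vertex vanishes. -/
def HasFlow {V E : Type} [Fintype E] [DecidableEq V] (ends : E × Fin 2 → V) (σ : E → ℤ) (k : ℤ) :
    Prop :=
  ∃ (τ : E × Fin 2 → ℤ) (f : E → ℤ), (∀ h, τ h = 1 ∨ τ h = -1) ∧
    (∀ e, τ (e, 0) * τ (e, 1) = -σ e) ∧ (∀ e, 0 < |f e| ∧ |f e| < k) ∧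
    ∀ v, ∑ h ∈ Finset.univ.filter (fun h => ends h = v), τ h * f h.1 = 0

/-- Every finite signed multigraph that has a nowhere-zero `k`-flow for some `k ≥ 2` has a
nowhere-zero 6-flow. -/
theorem result :
    ∀ (V E : Type) [Fintype V] [Fintype E] [DecidableEq V] (ends : E × Fin 2 → V) (σ : E → ℤ),
      (∀ e, σ e = 1 ∨ σ e = -1) → (∃ k : ℤ, 2 ≤ k ∧ HasFlow ends σ k) → HasFlow ends σ 6 := by
  intro V E _ _ _ ends σ hσ ⟨k, _, τ, f, h1, h2, h3, h4⟩
  classical
  let G : SG V E := ⟨Finset.univ, fun e => ends (e, 0), fun e => ends (e, 1),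
    fun e => if σ e = 1 then 0 else 1⟩
  have key : ∀ (g : E → ℤ) (x : V), G.bd g x =
      ∑ e, ((if ends (e, 0) = x then g e else 0) - (if ends (e, 1) = x then σ e * g e else 0)) := by
    intro g x
    refine Finset.sum_congr rfl fun e _ => ?_
    have h : (chi (if σ e = 1 then 0 else 1) : ℤ) = σ e := by
      rcases hσ e with h | h <;> simp [h]
    show (iv (ends (e, 0) = x) - iv (ends (e, 1) = x) * chi (if σ e = 1 then 0 else 1)) * g e = _
    rw [h]
    unfold iv
    split_ifs <;> ring
  have spl : ∀ (c : E × Fin 2 → ℤ) (x : V), ∑ h ∈ Finset.univ.filter (fun h => ends h = x), c h =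
      ∑ e, ((if ends (e, 0) = x then c (e, 0) else 0) + if ends (e, 1) = x then c (e, 1) else 0) := by
    intro c x
    rw [Finset.sum_filter, Fintype.sum_prod_type]
    exact Finset.sum_congr rfl fun e _ => Fin.sum_univ_two _
  have adm : G.Adm := by
    refine ⟨fun e => τ (e, 0) * f e, fun x => ?_, fun e _ => ?_⟩
    · rw [key]
      refine Eq.trans ?_ (h4 x)
      rw [spl]
      refine Finset.sum_congr rfl fun e _ => ?_
      have k1 : σ e * (τ (e, 0) * f e) = -(τ (e, 1) * f e) := by
        have k2 : σ e = -(τ (e, 0) * τ (e, 1)) := by rw [h2, neg_neg]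
        rw [k2]
        rcases h1 (e, 0) with a | a <;> rw [a] <;> ring
      rw [k1]
      split_ifs <;> ring
    · have k1 : f e ≠ 0 := abs_pos.1 (h3 e).1
      rcases h1 (e, 0) with a | a <;> simp [a, k1]
  obtain ⟨g, g1, g2⟩ := SG.six_of_cubic (fun G' c a => SG.six_full
    (fun G c => SG.a3p_of_d2 c (SG.d2p c)) (fun G c => SG.pair_l c) (fun G c => SG.top_l c) c a) adm
  refine ⟨fun h => if h.2 = 0 then 1 else -σ h.1, g, fun h => ?_, fun e => by simp, fun e => ?_,
    fun x => ?_⟩
  · beta_reduce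
    split_ifs
    · exact Or.inl rfl
    · rcases hσ h.1 with a | a <;> simp [a]
  · have := g2 e (Finset.mem_univ e)
    exact ⟨abs_pos.2 this.1, by have := this.2; omega⟩
  · rw [spl]
    refine Eq.trans ?_ (g1 x)
    rw [key]
    refine Finset.sum_congr rfl fun e _ => ?_
    by_cases a : ends (e, 0) = x <;> by_cases b : ends (e, 1) = x <;> simp [a, b]
    ring

end Pool.Agent.Results.MP_8c679b_co.SixFlow
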